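import Pool.Agent.H30.VX.Targets

/-!
# Row CT1 of vex_modules: extraction of a core of type I
-/

set_option autoImplicit false

namespace Pool.Agent.H84.VX

open Finset Pool.Agent.H48.CE Pool.Agent.H30.VR Pool.Agent.H30.VX

/-- the inequality between real numbers behind CT1 -/
theorem ct1_arith {ε ε₀ K m h μ β e eHB F R2 u : ℝ} (hε : 0 < ε) (hε1 : ε ≤ 1 / 100)
    (hε0 : ε₀ = ε ^ 2 / 100) (hK : 100 ≤ K) (hh : (1 - ε₀) * K ≤ h) (hμ : 0 ≤ μ)
    (hhμ : h + μ / 2 ≤ (1 + ε₀) * K) (hm : 49 / 20 * K ≤ m) (hβ : β + h = m)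
    (hF : F = (2 * K + 1) * (m - 1) - R2) (hR2 : R2 ≤ K ^ 2) (hFe : F ≤ e + ε₀ * K * m)
    (hu : u ≤ ε₀ * K * m) (he : e ≤ h * h + 2 * eHB + (μ * μ + u)) :
    h * β - eHB ≤ 5 * (ε₀ * (K * m)) := by
  have hε0' : 0 < ε₀ := by rw [hε0]; positivity
  have hε0s : ε₀ ≤ 1 / 1000000 := by rw [hε0]; nlinarith
  have hK0 : 0 < K := by linarith
  have hm0 : 0 < m := by linarith
  have hβ' : β = m - h := by linarith
  subst hβ'
  have hμ4 : μ ≤ 4 * (ε₀ * K) := by nlinarith
  have hμ2 : μ * μ ≤ 16 * (ε₀ * K) ^ 2 := by nlinarith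
  have h1 : (ε₀ * K) ^ 2 ≤ 1 / 1000000 * (ε₀ * (K * m)) := by
    have h2 : ε₀ * K ≤ 1 / 1000000 * m := by nlinarith
    have h3 : 0 ≤ ε₀ * K := by positivity
    have h4 := mul_le_mul_of_nonneg_left h2 h3
    nlinarith
  have hhu : h ≤ (1 + ε₀) * K := by linarith
  have h5 : (h - K) * m ≤ ε₀ * (K * m) := by
    have h6 : h - K ≤ ε₀ * K := by linarith
    have := mul_le_mul_of_nonneg_right h6 hm0.le
    linarith
  have h7 : K ^ 2 - h ^ 2 ≤ 2 * (ε₀ * (K * m)) := by
    have h8 : K ^ 2 - h ^ 2 = (K - h) * (K + h) := by ring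
    have h9 : K - h ≤ ε₀ * K := by linarith
    have h10 : 0 ≤ K + h := by nlinarith
    have h11 : K + h ≤ 2 * m := by nlinarith
    rw [h8]
    have h12 := mul_le_mul_of_nonneg_right h9 h10
    have h13 := mul_le_mul_of_nonneg_left h11 (by positivity : 0 ≤ ε₀ * K)
    linarith
  nlinarith [h1, h5, h7, hFe, he, hu, hR2, hF, hμ2, hm, hK]

theorem pf_CT1 (hFFB : T_FFB) : T_CT1 := by
  classical
  intro ε hε hε1
  refine ⟨ε ^ 2 / 100, 100, by positivity, ?_⟩
  intro k hk V _ G H M hHM hH hHMc hV hff huc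
  set ε₀ : ℝ := ε ^ 2 / 100 with hε0
  set B₀ : Finset V := univ \ H with hB0
  have hmB : ∀ v, v ∈ B₀ ↔ v ∉ H := by
    intro v
    rw [hB0, mem_sdiff]
    exact ⟨fun h => h.2, fun h => ⟨mem_univ _, h⟩⟩
  have hdis : Disjoint H B₀ := by
    rw [disjoint_left]
    intro v hv hv'
    exact (hmB v).1 hv' hv
  have huniv : (univ : Finset V) = H ∪ B₀ := by
    ext v
    rw [mem_union, hmB]
    exact ⟨fun _ => em _, fun _ => mem_univ _⟩
  have hBc : B₀.card + H.card = Fintype.card V := by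
    rw [← card_univ, huniv, card_union_of_disjoint hdis, add_comm]
  have hsplit : ee G univ univ = ee G H H + 2 * ee G H B₀ + ee G B₀ B₀ := by
    rw [huniv, ee_union_left hdis, ee_union_right hdis, ee_union_right hdis, ee_comm B₀ H]
    ring
  have hHH : ee G H H ≤ H.card * H.card := ee_le_mul H H
  have hBB : ee G B₀ B₀ ≤ M.card * M.card + uc G H M := by
    unfold uc
    rw [ee_eq_card, ← card_product]
    refine le_trans (card_le_card ?_) (card_union_le _ _)
    intro p hp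
    rw [mem_filter, mem_product, hmB, hmB] at hp
    rw [mem_union, mem_product, mem_filter]
    by_cases h : p.1 ∈ M ∧ p.2 ∈ M
    · exact Or.inl h
    · exact Or.inr ⟨mem_product.2 ⟨mem_univ _, mem_univ _⟩, hp.2, hp.1.1, hp.1.2, h⟩
  have hkR : (100 : ℝ) ≤ k := by exact_mod_cast hk
  have hV1 : 1 ≤ Fintype.card V := by
    have : (0 : ℝ) < Fintype.card V := by linarith
    exact_mod_cast this
  obtain ⟨hf1, hf2, _⟩ := hFFB k (Fintype.card V) (by omega) hV1
  set r := rr k (Fintype.card V) with hr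
  have hF : (ff k (Fintype.card V) : ℝ) = (2 * k + 1) * ((Fintype.card V : ℝ) - 1) -
      (r : ℝ) * (2 * k - r) := by
    have h1 : ((ff k (Fintype.card V) + r * (2 * k - r) : ℕ) : ℝ) =
        (((2 * k + 1) * (Fintype.card V - 1) : ℕ) : ℝ) := by
      exact_mod_cast hf1
    push_cast [Nat.cast_sub hV1, Nat.cast_sub hf2.le] at h1
    linarith
  have hR2 : (r : ℝ) * (2 * k - r) ≤ (k : ℝ) ^ 2 := by nlinarith [sq_nonneg ((k : ℝ) - r)]
  have heR : (ee G univ univ : ℝ) ≤ (H.card : ℝ) * H.card + 2 * ee G H B₀ +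
      ((M.card : ℝ) * M.card + uc G H M) := by
    have h1 : ee G univ univ ≤ H.card * H.card + 2 * ee G H B₀ + (M.card * M.card + uc G H M) := by
      rw [hsplit]
      omega
    exact_mod_cast h1
  have hBcR : (B₀.card : ℝ) + H.card = Fintype.card V := by exact_mod_cast hBc
  have hdef := ct1_arith (ε := ε) (ε₀ := ε₀) (K := k) (m := Fintype.card V) (h := H.card)
    (μ := M.card) (β := B₀.card) (e := ee G univ univ) (eHB := ee G H B₀)
    (F := ff k (Fintype.card V)) (R2 := (r : ℝ) * (2 * k - r)) (u := uc G H M) hε hε1 hε0 hkR hH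
    (Nat.cast_nonneg _) hHMc hV hBcR hF hR2 hff huc heR
  have hε0' : 0 < ε₀ := by rw [hε0]; positivity
  have hε0s : ε₀ ≤ 1 / 1000000 := by rw [hε0]; nlinarith
  have hhu : (H.card : ℝ) ≤ (1 + ε₀) * k := by
    have : (0 : ℝ) ≤ M.card := Nat.cast_nonneg _
    linarith
  have hk0 : (0 : ℝ) < k := by linarith
  have hB1 : (7 / 5 : ℝ) * k ≤ B₀.card := by nlinarith
  have hB2 : (Fintype.card V : ℝ) ≤ 2 * B₀.card := by nlinarith
  have hB3 : (0 : ℝ) < B₀.card := by nlinarith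
  set Z : Finset V := H.filter (fun v => ((nb G B₀ v).card : ℝ) < (1 - ε) * B₀.card) with hZ
  set H₀ : Finset V := H.filter (fun v => ¬ ((nb G B₀ v).card : ℝ) < (1 - ε) * B₀.card) with hH0
  have hcard : (H.card : ℝ) = Z.card + H₀.card := by
    exact_mod_cast (Finset.card_filter_add_card_filter_not (s := H) _).symm
  have hsum : (ee G H B₀ : ℝ) ≤ Z.card * ((1 - ε) * B₀.card) + H₀.card * B₀.card := by
    unfold ee
    push_cast
    rw [← Finset.sum_filter_add_sum_filter_not H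
      (fun v => ((nb G B₀ v).card : ℝ) < (1 - ε) * B₀.card)]
    refine add_le_add ?_ ?_
    · calc ∑ v ∈ Z, ((nb G B₀ v).card : ℝ) ≤ ∑ _v ∈ Z, (1 - ε) * (B₀.card : ℝ) :=
            sum_le_sum fun v hv => (mem_filter.1 hv).2.le
        _ = Z.card * ((1 - ε) * B₀.card) := by rw [sum_const, nsmul_eq_mul]
    · calc ∑ v ∈ H₀, ((nb G B₀ v).card : ℝ) ≤ ∑ _v ∈ H₀, (B₀.card : ℝ) :=
            sum_le_sum fun v _ => by exact_mod_cast card_le_card (nb_subset B₀ v)
        _ = H₀.card * B₀.card := by rw [sum_const, nsmul_eq_mul]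
  have hZ1 : ε * Z.card * B₀.card ≤ 5 * (ε₀ * (k * Fintype.card V)) := by
    rw [hcard] at hdef
    nlinarith [hdef, hsum]
  have hZ2 : (Z.card : ℝ) ≤ ε / 10 * k := by
    have h1 : 5 * (ε₀ * (k * Fintype.card V)) ≤ ε * (ε / 10 * k) * B₀.card := by
      have h2 : (0 : ℝ) ≤ ε ^ 2 * k := by positivity
      have h3 := mul_le_mul_of_nonneg_left hB2 h2
      rw [hε0]
      linarith
    have h4 : ε * Z.card * B₀.card ≤ ε * (ε / 10 * k) * B₀.card := le_trans hZ1 h1
    have h5 : ε * Z.card ≤ ε * (ε / 10 * k) := le_of_mul_le_mul_right h4 hB3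
    exact le_of_mul_le_mul_left h5 hε
  refine ⟨H₀, B₀, ?_, ?_, hB1, ?_⟩
  · intro v hv hv'
    exact (hmB v).1 hv' (mem_filter.1 hv).1
  · have h1 : ε₀ ≤ ε / 10 := by rw [hε0]; nlinarith
    have h2 := mul_le_mul_of_nonneg_right h1 hk0.le
    have h3 : 0 < ε * k := by positivity
    linarith
  · intro v hv
    exact not_lt.1 (mem_filter.1 hv).2

end Pool.Agent.H84.VX
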