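import Pool.Agent.H30.VX.Targets

/-!
# Row LVC of vex_modules: counting with two leaves
-/

set_option autoImplicit false

namespace Pool.Agent.H84.VX

open Finset Pool.Agent.H48.CE Pool.Agent.H30.VR Pool.Agent.H30.VX

open scoped Classical in
theorem card_pv {V : Type} (X Y : Finset V) :
    (X.filter (fun v => v ∉ Y)).card + (X.filter (fun v => v ∈ Y)).card = X.card := by
  have h := Finset.card_filter_add_card_filter_not (s := X) (fun v => v ∈ Y)
  omega

theorem pf_LVC (hFFA : T_FFA) (hFFC : T_FFC) : T_LVC := by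
  classical
  intro V _ G k X₁ Y₁ X₂ Y₂ hk hBd hee hS1 hS2 hXY h2a h2b hn1 hn2 h3a h3b
  set U₁ : Finset V := X₁.filter (fun v => v ∉ Y₁) with hU1
  set U₂ : Finset V := X₂.filter (fun v => v ∉ Y₂) with hU2
  have hc1 : U₁.card + 2 = X₁.card := by
    have := card_pv X₁ Y₁
    rw [hU1]
    omega
  have hc2 : U₂.card + 2 = X₂.card := by
    have := card_pv X₂ Y₂
    rw [hU2]
    omega
  have hdis : Disjoint U₁ U₂ := by
    rw [disjoint_left]
    intro v hv hv'
    rw [hU1, mem_filter] at hv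
    rw [hU2, mem_filter] at hv'
    exact hv.2 (hXY hv'.1)
  set S : Finset V := univ \ (U₁ ∪ U₂) with hS
  have hSc : S.card + (U₁.card + U₂.card) = Fintype.card V := by
    rw [← card_union_of_disjoint hdis, hS, card_sdiff_add_card_eq_card (subset_univ _), card_univ]
  have hSne : S.Nonempty := by
    have h1 : 0 < (X₂.filter (fun v => v ∈ Y₂)).card := by omega
    obtain ⟨v, hv⟩ := card_pos.1 h1
    rw [mem_filter] at hv
    refine ⟨v, ?_⟩
    rw [hS, mem_sdiff, mem_union, hU1, hU2, mem_filter, mem_filter]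
    refine ⟨mem_univ _, ?_⟩
    rintro (h | h)
    · exact h.2 (hXY hv.1)
    · exact h.2 hv.2
  have hSn : ∃ v, v ∉ S := by
    have h1 : 0 < U₁.card := by omega
    obtain ⟨v, hv⟩ := card_pos.1 h1
    refine ⟨v, ?_⟩
    rw [hS, mem_sdiff, not_and_not_right]
    intro _
    exact mem_union_left _ hv
  have hin : ∀ (X Y : Finset V), Sp G 2 X Y → ∀ a b, G.Adj a b → a ∈ X → a ∉ Y → b ∈ X := by
    intro X Y hXY a b hab haX haY
    by_contra hb
    rcases hXY.1 b with h | h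
    · exact hb h
    · exact hXY.2.1 a haX haY b h hb hab
  have hsum : ee G univ univ ≤ ee G S S + ee G X₁ X₁ + ee G X₂ X₂ := by
    rw [ee_eq_card, ee_eq_card, ee_eq_card, ee_eq_card]
    refine le_trans (card_le_card ?_) (le_trans (card_union_le _ _)
      (Nat.add_le_add_right (card_union_le _ _) _))
    intro p hp
    rw [mem_filter] at hp
    obtain ⟨_, hadj⟩ := hp
    have key : ∀ a b, G.Adj a b → a ∈ U₁ → a ∈ X₁ ∧ b ∈ X₁ := by
      intro a b hab ha
      rw [hU1, mem_filter] at ha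
      exact ⟨ha.1, hin X₁ Y₁ hS1 a b hab ha.1 ha.2⟩
    have key2 : ∀ a b, G.Adj a b → a ∈ U₂ → a ∈ X₂ ∧ b ∈ X₂ := by
      intro a b hab ha
      rw [hU2, mem_filter] at ha
      exact ⟨ha.1, hin X₂ Y₂ hS2 a b hab ha.1 ha.2⟩
    rw [mem_union, mem_union, mem_filter, mem_filter, mem_filter, mem_product, mem_product,
      mem_product]
    by_cases h1 : p.1 ∈ U₁
    · exact Or.inl (Or.inr ⟨key _ _ hadj h1, hadj⟩)
    by_cases h2 : p.2 ∈ U₁
    · exact Or.inl (Or.inr ⟨(key _ _ hadj.symm h2).symm, hadj⟩)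
    by_cases h3 : p.1 ∈ U₂
    · exact Or.inr ⟨key2 _ _ hadj h3, hadj⟩
    by_cases h4 : p.2 ∈ U₂
    · exact Or.inr ⟨(key2 _ _ hadj.symm h4).symm, hadj⟩
    refine Or.inl (Or.inl ⟨⟨?_, ?_⟩, hadj⟩)
    · rw [hS, mem_sdiff, mem_union]
      exact ⟨mem_univ _, fun h => h.elim h1 h3⟩
    · rw [hS, mem_sdiff, mem_union]
      exact ⟨mem_univ _, fun h => h.elim h2 h4⟩
  have hbS := hBd S hSne hSn
  have hb1 := hBd X₁ (card_pos.1 (by omega)) hn1
  have hb2 := hBd X₂ (card_pos.1 (by omega)) hn2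
  have hf1 := (hFFA k (U₁.card + 1) hk (by omega)).2.1
  have hf2 := (hFFA k (U₂.card + 1) hk (by omega)).2.1
  have hs0 : 1 ≤ S.card := card_pos.2 hSne
  have hg1 := hFFC k S.card (U₁.card + U₂.card + 1) hk hs0 (by omega)
  have hg2 := hFFC k (U₁.card + 1) (U₂.card + 1) hk (by omega) (by omega)
  have e1 : S.card + (U₁.card + U₂.card + 1) - 1 = Fintype.card V := by omega
  have e2 : U₁.card + 1 + (U₂.card + 1) - 1 = U₁.card + U₂.card + 1 := by omega
  have e3 : X₁.card - 1 = U₁.card + 1 := by omega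
  have e4 : X₂.card - 1 = U₂.card + 1 := by omega
  rw [e1] at hg1
  rw [e2] at hg2
  rw [← hc1] at hb1
  rw [← hc2] at hb2
  rw [e3, e4]
  rw [← hc1, ← hc2]
  have e5 : U₁.card + 1 + 1 = U₁.card + 2 := rfl
  have e6 : U₂.card + 1 + 1 = U₂.card + 2 := rfl
  rw [e5] at hf1
  rw [e6] at hf2
  generalize min (rr k (U₁.card + 1) * rr k (U₂.card + 1))
    ((2 * k - rr k (U₁.card + 1)) * (2 * k - rr k (U₂.card + 1))) = μ at hg2 ⊢
  refine ⟨by omega, by omega, by omega⟩

end Pool.Agent.H84.VX
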