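import Pool.Agent.H30.VX.Targets

/-!
# Row ST2 of vex_modules: many light pairs give a lower regular pair of small weight
-/

set_option autoImplicit false

namespace Pool.Agent.H84.VX

open Finset Pool.Agent.H48.CE Pool.Agent.H30.VR Pool.Agent.H30.VX

theorem weight_pair {V : Type} {A B : Finset V} (w : V → ℝ) (hcard : A.card = B.card)
    (h : ∀ x ∈ A, ∀ y ∈ B, w x + w y < 1) : ∑ v ∈ A, w v + ∑ v ∈ B, w v ≤ A.card := by
  rcases Nat.eq_zero_or_pos A.card with h0 | h0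
  · have hA : A = ∅ := card_eq_zero.1 h0
    have hB : B = ∅ := card_eq_zero.1 (hcard ▸ h0)
    rw [hA, hB]
    simp
  · have h1 : ∑ x ∈ A, ∑ y ∈ B, (w x + w y) ≤ ∑ _x ∈ A, ∑ _y ∈ B, (1 : ℝ) :=
      Finset.sum_le_sum (fun x hx => Finset.sum_le_sum (fun y hy => (h x hx y hy).le))
    simp only [Finset.sum_add_distrib, Finset.sum_const, nsmul_eq_mul, mul_one] at h1
    rw [← Finset.mul_sum, ← hcard] at h1
    have h2 : (0 : ℝ) < A.card := by exact_mod_cast h0
    have h3 : (A.card : ℝ) * (∑ v ∈ A, w v + ∑ v ∈ B, w v) ≤ A.card * A.card := by linarith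
    exact le_of_mul_le_mul_left h3 h2

theorem pf_ST2 (hWG2 : T_WG2) (hDEN : Pool.Agent.H30.VR.T_DEN) (hINC : T_INC) : T_ST2 := by
  classical
  intro ε hε hε1
  set g : ℝ := ε ^ 3 / 100 with hg
  have hg0 : 0 < g := by positivity
  have hε3 : ε ^ 3 ≤ ε := by
    have h2 : ε ^ 2 ≤ 1 := pow_le_one₀ hε.le hε1
    nlinarith
  have hgε : g ≤ ε / 100 := by rw [hg]; linarith
  refine ⟨g / 16, by positivity, by linarith, ?_⟩
  intro r hr
  have hr0 : (0 : ℝ) < r := by exact_mod_cast (by omega : 0 < r)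
  have hδ0 : 0 < g / 8 := by positivity
  obtain ⟨s, hs⟩ := pow_unbounded_of_one_lt (1 / (g / 8))
    (by have : 0 < 1 / (2 * (r : ℝ) ^ 2) := by positivity
        linarith : (1 : ℝ) < 1 + 1 / (2 * (r : ℝ) ^ 2))
  have hs1 : 1 < g / 8 * (1 + 1 / (2 * (r : ℝ) ^ 2)) ^ s := by
    rw [div_lt_iff₀ hδ0] at hs
    linarith
  have hrs0 : 0 < r ^ s := pow_pos (by omega) s
  have hrs : (0 : ℝ) < (r : ℝ) ^ s := by positivity
  have hrs1 : (1 : ℝ) ≤ (r : ℝ) ^ s := by exact_mod_cast hrs0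
  refine ⟨g / (16 * (r : ℝ) ^ s), ⌈64 * (r : ℝ) ^ s / g⌉₊ + 1, by positivity, ?_⟩
  intro k hk V _ G hrun hV w hw hlt
  have hkg : 64 * (r : ℝ) ^ s ≤ g * k := by
    have h1 : 64 * (r : ℝ) ^ s / g ≤ (⌈64 * (r : ℝ) ^ s / g⌉₊ : ℝ) := Nat.le_ceil _
    have h2 : ((⌈64 * (r : ℝ) ^ s / g⌉₊ : ℕ) : ℝ) ≤ k := by
      exact_mod_cast (by omega : ⌈64 * (r : ℝ) ^ s / g⌉₊ ≤ k)
    have h3 := le_trans h1 h2
    rw [div_le_iff₀ hg0] at h3
    linarith
  have hk0 : (0 : ℝ) < k := by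
    have : 0 < k := by omega
    exact_mod_cast this
  obtain ⟨X, Y, hXY, hbig, hwt⟩ := hWG2 G ε k w hε hε1 hk0 hV hw hlt
  rw [← hg] at hbig
  set D : ℕ := ⌊g * k / 2⌋₊ with hD
  have hD1 : (D : ℝ) ≤ g * k / 2 := Nat.floor_le (by positivity)
  have hD2 : g * k / 2 < (D : ℝ) + 1 := Nat.lt_floor_add_one _
  have hD31 : (31 : ℝ) < (D : ℝ) + 0 + 1 := by linarith
  have hDge : 2 ≤ D := by
    have : (2 : ℝ) ≤ D := by linarith
    exact_mod_cast this
  set q : ℕ := D / (2 * r ^ s) with hq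
  have hq1 : (D : ℝ) < ((q : ℝ) + 1) * (2 * (r : ℝ) ^ s) := by
    have h1 := Nat.lt_div_mul_add (a := D) (b := 2 * r ^ s) (by positivity)
    have h2 : D < (q + 1) * (2 * r ^ s) := by
      rw [hq]
      linarith
    exact_mod_cast h2
  have hqge : g * k / (4 * (r : ℝ) ^ s) - 2 < q := by
    have h1 : g * k / 2 - 1 < ((q : ℝ) + 1) * (2 * (r : ℝ) ^ s) := by linarith
    have h2 : g * k / (4 * (r : ℝ) ^ s) = (g * k / 2) / (2 * (r : ℝ) ^ s) := by
      field_simp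
      ring
    have h3 : (g * k / 2) / (2 * (r : ℝ) ^ s) < (q : ℝ) + 2 := by
      rw [div_lt_iff₀ (by positivity)]
      nlinarith
    linarith
  have hgk16 : 16 ≤ g * k / (4 * (r : ℝ) ^ s) := by
    rw [le_div_iff₀ (by positivity)]
    linarith
  have hqpos : 1 ≤ q := by
    have : (1 : ℝ) ≤ q := by linarith
    exact_mod_cast this
  have hqγ : g / (16 * (r : ℝ) ^ s) * k ≤ q := by
    have h1 : g / (16 * (r : ℝ) ^ s) * k = g * k / (4 * (r : ℝ) ^ s) / 4 := by
      field_simp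
      ring
    rw [h1]
    linarith
  have hN : 2 * (r ^ s * q) ≤ D := by
    have := Nat.div_mul_le_self D (2 * r ^ s)
    rw [← hq] at this
    linarith
  have hee2 : 2 * D * (X.card + Y.card) < ee G X Y := by
    have h1 : X.card + Y.card ≤ Fintype.card V := by
      rw [← card_union_of_disjoint (Finset.disjoint_left.2 hXY)]
      exact Finset.card_le_univ _
    have h2 : ((2 * D * (X.card + Y.card) : ℕ) : ℝ) < ee G X Y := by
      push_cast
      have h3 : ((X.card : ℝ) + Y.card) ≤ Fintype.card V := by exact_mod_cast h1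
      have h4 : 2 * (D : ℝ) * (X.card + Y.card) ≤ (g * k) * Fintype.card V :=
        mul_le_mul (by linarith) h3 (by positivity) (by positivity)
      linarith
    exact_mod_cast h2
  obtain ⟨A, hA, B, hB, hAc, hBc, hden⟩ := hDEN G X Y k D (r ^ s * q) hrun hXY hDge hN hee2
  have hden2 : g / 8 * A.card * B.card ≤ ee G A B := by
    have h1 : ((D * (r ^ s * q) * (r ^ s * q) : ℕ) : ℝ) ≤ ((2 * k * ee G A B : ℕ) : ℝ) := by
      exact_mod_cast hden
    rw [hAc, hBc]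
    push_cast at h1 ⊢
    have h2 : g * k / 4 ≤ D := by linarith
    have hz : (0 : ℝ) ≤ ((r : ℝ) ^ s * q) * ((r : ℝ) ^ s * q) := by positivity
    have h3 := mul_le_mul_of_nonneg_right h2 hz
    have h4 : (2 * (k : ℝ)) * (g / 8 * ((r : ℝ) ^ s * q) * ((r : ℝ) ^ s * q)) ≤
        (2 * (k : ℝ)) * ee G A B := by linarith
    exact le_of_mul_le_mul_left h4 (by positivity)
  obtain ⟨t, ht1, ht2, A', hA', B', hB', hAc', hBc', hLR⟩ := hINC G r s q (g / 8) A B hr hqpos hδ0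
    hs1 hAc hBc hden2
  refine ⟨A', B', t, ?_, hAc', hBc', ?_, ?_, ?_, ?_⟩
  · intro v hv hv'
    exact hXY v (hA (hA' hv)) (hB (hB' hv'))
  · refine le_trans hqγ ?_
    exact_mod_cast ht1
  · rw [hAc']
    have h1 : ((2 * (r * t) : ℕ) : ℝ) ≤ (D : ℝ) := by
      have : 2 * (r * t) ≤ D := by omega
      exact_mod_cast this
    push_cast at h1 ⊢
    have h2 : g * k ≤ ε / 100 * k := mul_le_mul_of_nonneg_right hgε hk0.le
    have h3 : 0 < ε * k := by positivity
    linarith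
  · have e1 : g / 16 = g / 8 / 2 := by ring
    rw [e1]
    exact hLR
  · exact weight_pair w (hAc'.trans hBc'.symm)
      (fun x hx y hy => hwt x (hA (hA' hx)) y (hB (hB' hy)))

end Pool.Agent.H84.VX
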