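import Pool.Agent.H30.VX.Targets

/-!
# Row HBC of vex_modules: the counting of the hub lemma
-/

set_option autoImplicit false

namespace Pool.Agent.H84.VX

open Finset Pool.Agent.H48.CE Pool.Agent.H30.VR Pool.Agent.H30.VX

theorem ee_self_le {V : Type} (G : SimpleGraph V) (U : Finset V) :
    ee G U U ≤ U.card * (U.card - 1) := by
  classical
  unfold ee
  calc ∑ a ∈ U, (nb G U a).card ≤ ∑ _a ∈ U, (U.card - 1) := by
        refine sum_le_sum fun a ha => ?_
        rw [← card_erase_of_mem ha]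
        refine card_le_card fun v hv => ?_
        rw [mem_nb] at hv
        rw [mem_erase]
        exact ⟨hv.2.ne', hv.1⟩
    _ = U.card * (U.card - 1) := by rw [sum_const, smul_eq_mul]

/-- the inequality between real numbers behind HBC -/
theorem hbc_arith {K J x h b ρ E eX m F rr2 : ℝ} (hK : 10000 ≤ K)
    (hJ : 2000 * J ≤ K) (hx0 : 0 ≤ x) (hx : x ≤ J) (hb : 0 ≤ b) (hρ : 0 ≤ ρ)
    (hh : h + J = K) (hm : m = h + x + b + ρ) (hm2 : 23 * K ≤ 10 * m)
    (hF : F = (2 * K + 1) * (m - 1) - K ^ 2 + rr2) (hFe : F ≤ eX + K + rr2)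
    (he : eX ≤ (h + x) * (h + x - 1) + 2 * ((h + x) * b) + 64 * (J - x + 1) * (J + 1) +
      ρ * (3 / 2 * h + 2 * x + 16 * (J + 1)) + E) :
    K / 5 + 2 / 5 * K * ρ ≤ E := by
  have hh' : h = K - J := by linarith
  subst hh'
  obtain ⟨y, hy⟩ : ∃ y, y = J - x := ⟨_, rfl⟩
  have hy0 : 0 ≤ y := by linarith
  have hx' : x = J - y := by linarith
  subst hx'
  have hb' : b = m - (K - y) - ρ := by linarith
  subst hb'
  have h1 : (2 * K + 1) * (m - 1) - K ^ 2 ≤ eX + K := by linarith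
  have h2 : (2 * y + 1) * (m - 1 - K) + y ^ 2 + y - K - 64 * (y + 1) * (J + 1) +
      2 * ρ * ((K - J) / 4 - 8 * (J + 1)) ≤ E := by
    nlinarith [h1, he]
  have h3 : 0 ≤ (2 * y + 1) * ((m - 1 - K) - (13 / 10 * K - 1)) :=
    mul_nonneg (by linarith) (by linarith)
  have h4 : 0 ≤ (y + 1) * (24 / 625 * K - 64 * (J + 1)) :=
    mul_nonneg (by linarith) (by linarith)
  have h5 : 0 ≤ ρ * (2 * ((K - J) / 4 - 8 * (J + 1)) - 2 / 5 * K) :=
    mul_nonneg hρ (by linarith)
  have h6 : 0 ≤ y * K := mul_nonneg hy0 (by linarith)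
  nlinarith [h2, h3, h4, h5, h6, sq_nonneg y, hy0, hK]

theorem pf_HBC (hFFB : T_FFB) : T_HBC := by
  classical
  intro V G X Hs Xh Bs R k j hHX hXX hBX hdis hR hHj hxj hBB hRv hjk hk hm hff
  set B' : Finset V := Bs.filter (fun v => v ∉ Xh) with hB'
  have hmB' : ∀ v, v ∈ B' ↔ v ∈ Bs ∧ v ∉ Xh := fun v => by rw [hB', mem_filter]
  set U : Finset V := Hs ∪ Xh with hU
  have hd0 : Disjoint Hs Xh := by
    rw [disjoint_left]
    exact fun v hv => (hdis v hv).1
  have hUc : U.card = Hs.card + Xh.card := by rw [hU, card_union_of_disjoint hd0]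
  have hd1 : Disjoint B' R := by
    rw [disjoint_left]
    intro v hv hv'
    exact ((hR v).1 hv').2.2.2 ((hmB' v).1 hv).1
  have hd2 : Disjoint U (B' ∪ R) := by
    rw [disjoint_left]
    intro v hv hv'
    rw [hU, mem_union] at hv
    rw [mem_union, hmB'] at hv'
    rcases hv with h1 | h1 <;> rcases hv' with h2 | h2
    · exact (hdis v h1).2 h2.1
    · exact ((hR v).1 h2).2.1 h1
    · exact h2.2 h1
    · exact ((hR v).1 h2).2.2.1 h1
  have hXeq : X = U ∪ (B' ∪ R) := by
    ext v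
    rw [mem_union, mem_union, mem_union, hmB', hR]
    constructor
    · intro hv
      by_cases h1 : v ∈ Hs
      · exact Or.inl (Or.inl h1)
      by_cases h2 : v ∈ Xh
      · exact Or.inl (Or.inr h2)
      by_cases h3 : v ∈ Bs
      · exact Or.inr (Or.inl ⟨h3, h2⟩)
      · exact Or.inr (Or.inr ⟨hv, h1, h2, h3⟩)
    · rintro ((h | h) | h | h)
      · exact hHX h
      · exact hXX h
      · exact hBX h.1
      · exact h.1
  have hXc : X.card = Hs.card + Xh.card + B'.card + R.card := by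
    rw [hXeq, card_union_of_disjoint hd2, card_union_of_disjoint hd1, hUc]
    omega
  have hsplit : ee G X X = ee G U U + 2 * ee G U B' + 2 * ee G R U + ee G B' B' +
      2 * ee G R B' + ee G R R := by
    rw [hXeq, ee_union_left hd2, ee_union_right hd2, ee_union_right hd2, ee_union_right hd1,
      ee_union_left hd1, ee_union_left hd1, ee_union_right hd1, ee_union_right hd1,
      ee_comm B' U, ee_comm U R, ee_comm B' R]
    ring
  have hb1 : ee G U U ≤ U.card * (U.card - 1) := ee_self_le G U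
  have hb2 : ee G U B' ≤ U.card * B'.card := ee_le_mul U B'
  have hb3 : 4 * ee G R U ≤ R.card * (3 * Hs.card + 4 * Xh.card) := by
    rw [hU, ee_union_right hd0, mul_add, mul_add]
    refine Nat.add_le_add ?_ ?_
    · unfold ee
      rw [mul_sum]
      calc ∑ v ∈ R, 4 * (nb G Hs v).card ≤ ∑ _v ∈ R, 3 * Hs.card :=
            sum_le_sum fun v hv => (hRv v hv).1
        _ = R.card * (3 * Hs.card) := by rw [sum_const, smul_eq_mul]
    · have := ee_le_mul (G := G) R Xh
      calc 4 * ee G R Xh ≤ 4 * (R.card * Xh.card) := Nat.mul_le_mul_left _ this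
        _ = R.card * (4 * Xh.card) := by ring
  have hb4 : ee G R B' ≤ R.card * (8 * (j + 1)) := by
    unfold ee
    calc ∑ v ∈ R, (nb G B' v).card ≤ ∑ _v ∈ R, 8 * (j + 1) := by
          refine sum_le_sum fun v hv => ?_
          exact le_trans (card_le_card (nb_mono (filter_subset _ _) v)) (hRv v hv).2
      _ = R.card * (8 * (j + 1)) := by rw [sum_const, smul_eq_mul]
  have hX1 : 1 ≤ X.card := by omega
  obtain ⟨hf1, hf2, _⟩ := hFFB k X.card (by omega) hX1
  set r := rr k X.card with hr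
  have hF : (ff k X.card : ℝ) = (2 * k + 1) * ((X.card : ℝ) - 1) - (k : ℝ) ^ 2 +
      ((k : ℝ) - r) ^ 2 := by
    have h1 : ((ff k X.card + r * (2 * k - r) : ℕ) : ℝ) = (((2 * k + 1) * (X.card - 1) : ℕ) : ℝ) := by
      exact_mod_cast hf1
    push_cast [Nat.cast_sub hX1, Nat.cast_sub hf2.le] at h1
    linarith
  have hffR : (ff k X.card : ℝ) ≤ ee G X X + k + ((k : ℝ) - r) ^ 2 := by
    exact_mod_cast hff
  have hHc : (Hs.card : ℝ) + j = k := by exact_mod_cast hHj
  have hxR : (Xh.card : ℝ) ≤ j := by exact_mod_cast hxj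
  have hBBR : (ee G B' B' : ℝ) ≤ 64 * ((j : ℝ) - Xh.card + 1) * (j + 1) := by
    have h1 : (ee G B' B' : ℝ) ≤ ((64 * (j - Xh.card + 1) * (j + 1) : ℕ) : ℝ) := by
      exact_mod_cast hBB
    push_cast [Nat.cast_sub hxj] at h1
    exact h1
  have hU1 : 1 ≤ U.card := by omega
  have hb1R : (ee G U U : ℝ) ≤ ((Hs.card : ℝ) + Xh.card) * ((Hs.card : ℝ) + Xh.card - 1) := by
    have h1 : (ee G U U : ℝ) ≤ ((U.card * (U.card - 1) : ℕ) : ℝ) := by exact_mod_cast hb1
    push_cast [Nat.cast_sub hU1] at h1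
    rw [hUc] at h1
    push_cast at h1
    exact h1
  have hb2R : (ee G U B' : ℝ) ≤ ((Hs.card : ℝ) + Xh.card) * B'.card := by
    have h1 : (ee G U B' : ℝ) ≤ ((U.card * B'.card : ℕ) : ℝ) := by exact_mod_cast hb2
    rw [hUc] at h1
    push_cast at h1
    exact h1
  have hb3R : 4 * (ee G R U : ℝ) ≤ R.card * (3 * Hs.card + 4 * Xh.card) := by exact_mod_cast hb3
  have hb4R : (ee G R B' : ℝ) ≤ R.card * (8 * (j + 1)) := by exact_mod_cast hb4
  have hsR : (ee G X X : ℝ) = ee G U U + 2 * ee G U B' + 2 * ee G R U + ee G B' B' +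
      2 * ee G R B' + ee G R R := by exact_mod_cast hsplit
  have hmR : 23 * (k : ℝ) ≤ 10 * X.card := by exact_mod_cast hm
  have hXcR : (X.card : ℝ) = Hs.card + Xh.card + B'.card + R.card := by exact_mod_cast hXc
  have hkR : (10000 : ℝ) ≤ k := by exact_mod_cast hk
  have hjR : 2000 * (j : ℝ) ≤ k := by exact_mod_cast hjk
  have key : (k : ℝ) / 5 + 2 / 5 * k * R.card ≤ ee G R R := by
    refine hbc_arith (K := k) (J := j) (x := Xh.card) (h := Hs.card) (b := B'.card)
      (ρ := R.card) (E := ee G R R) (eX := ee G X X) (m := X.card) (F := ff k X.card)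
      (rr2 := ((k : ℝ) - r) ^ 2) hkR hjR (Nat.cast_nonneg _) hxR
      (Nat.cast_nonneg _) (Nat.cast_nonneg _) hHc hXcR hmR hF hffR ?_
    rw [hsR]
    nlinarith [hBBR, hb1R, hb2R, hb3R, hb4R]
  have hRnn : (0 : ℝ) ≤ R.card := Nat.cast_nonneg _
  have hEpos : (0 : ℝ) < ee G R R := by
    have : 0 ≤ 2 / 5 * (k : ℝ) * R.card := by positivity
    linarith
  refine ⟨?_, ?_⟩
  · by_contra hne
    rw [not_nonempty_iff_eq_empty] at hne
    rw [hne] at hEpos
    simp [ee] at hEpos
  · have h1 : (k : ℝ) * R.card ≤ 50 * ee G R R := by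
      have h2 : 0 ≤ (k : ℝ) * R.card := by positivity
      linarith
    exact_mod_cast h1

end Pool.Agent.H84.VX
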